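import Pool.Agent.E8helper71.CP.Y706.BI.Stm

/-!
# Project BI: the Green function and the pairing of a balanced bicritical map
-/

set_option autoImplicit false

namespace Pool.Agent.E8helper71.CP.Y824.BI

open Pool.Agent.TH951.W.UB Pool.Agent.TH951.W.UG Pool.Agent.TH951.W.UH Pool.Agent.E8helper71.CP.Y706.BI Finset Polynomial

universe u

section

variable {Ω : Type u} [NormedField Ω]

/-- `F X` is a multiple of `fU X` -/
lemma fU_spec (S : HS Ω) (X : UV Ω) :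
    ∃ t : Ω, t ≠ 0 ∧ S.F X.1 = t • (fU S X).1 ∧ ‖t‖ = ‖S.F X.1‖ :=
  nrm_spec (S.F X.1) (S.nz X.1 X.ne)

lemma eqv_spec {X Y : UV Ω} (h : eqv X Y) : ∃ t : Ω, t ≠ 0 ∧ ‖t‖ = 1 ∧ X.1 = t • Y.1 := by
  obtain ⟨t, ht⟩ := (wd_zero_iff Y.ne).1 h
  have h1 : ‖t‖ = 1 := by
    have := congrArg norm ht
    rw [norm_smul, X.2, Y.2, mul_one] at this
    exact this.symm
  refine ⟨t, ?_, h1, ht⟩
  rintro rfl
  rw [norm_zero] at h1
  exact zero_ne_one h1

lemma hh_eqv (S : HS Ω) {X Y : UV Ω} (h : eqv X Y) : hh S X = hh S Y := by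
  obtain ⟨t, _, h1, h2⟩ := eqv_spec h
  unfold hh
  rw [h2, S.hom, norm_smul, norm_pow, h1, one_pow, one_mul]

lemma fU_eqv (S : HS Ω) {X Y : UV Ω} (h : eqv X Y) : eqv (fU S X) (fU S Y) := by
  obtain ⟨t, _, h1, h2⟩ := eqv_spec h
  obtain ⟨s, hs, hs1, _⟩ := fU_spec S X
  obtain ⟨r, hr, hr1, _⟩ := fU_spec S Y
  have h3 : wd (S.F X.1) (S.F Y.1) = 0 := by
    rw [h2, S.hom, wd_smul_left, wd_self, mul_zero]
  rw [hs1, hr1, wd_smul_left, wd_smul_right] at h3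
  exact ((mul_eq_zero.1 h3).resolve_left hs |> mul_eq_zero.1).resolve_left hr

lemma iter_eqv (S : HS Ω) {X Y : UV Ω} (h : eqv X Y) (n : ℕ) :
    eqv ((fU S)^[n] X) ((fU S)^[n] Y) := by
  induction n with
  | zero => exact h
  | succ n ih =>
    rw [Function.iterate_succ_apply', Function.iterate_succ_apply']
    exact fU_eqv S ih

lemma G0_eqv (S : HS Ω) {X Y : UV Ω} (h : eqv X Y) : G0 S X = G0 S Y := by
  unfold G0
  exact tsum_congr fun n => by rw [hh_eqv S (iter_eqv S h n)]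

lemma gg_eqv (S : HS Ω) {X Y : UV Ω} (h : eqv X Y) (Z : UV Ω) :
    gg S X Z = gg S Y Z ∧ (eqv X Z ↔ eqv Y Z) := by
  obtain ⟨t, ht, h1, h2⟩ := eqv_spec h
  constructor
  · unfold gg
    rw [G0_eqv S h, h2, wd_smul_left, norm_mul, h1, one_mul]
  · unfold eqv
    rw [h2, wd_smul_left, mul_eq_zero]
    exact ⟨fun h3 => h3.resolve_left ht, fun h3 => Or.inr h3⟩

lemma gg_symm (S : HS Ω) (X Y : UV Ω) : gg S X Y = gg S Y X := by
  unfold gg
  rw [wd_comm X.1 Y.1, norm_neg]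
  ring

lemma rt_eqv (S : HS Ω) (Y : UV Ω) (l : Fin S.d) : eqv (fU S (rt S Y l)) Y := by
  obtain ⟨t, ht⟩ := HS.rs_root (rt_spec S Y) Y.2 l
  obtain ⟨s, hs, hs1, _⟩ := fU_spec S (rt S Y l)
  have h1 : wd (S.F (rt S Y l).1) Y.1 = 0 := by
    rw [ht, wd_smul_left, wd_self, mul_zero]
  rw [hs1, wd_smul_left] at h1
  exact (mul_eq_zero.1 h1).resolve_left hs

end

end Pool.Agent.E8helper71.CP.Y824.BI
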